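import Pool.Agent.Helper77.SGC.Goals

/-!
# Packet SGC-SCAL (MP_a41896_nt): scaling to integral coefficients
-/

set_option autoImplicit false

open MvPolynomial

namespace Pool.Agent.Helper86.SGC

open Height
open Pool.Agent.Helper92.Ru Pool.Agent.Helper42.SG Pool.Agent.Helper77.SGC

lemma house_le_mulHeight₁ {K : Type} [Field K] [NumberField K] (y : K) :
    NumberField.house y ≤ mulHeight₁ y := by
  classical
  have key : ∀ φ : K →+* ℂ, ‖φ y‖ ≤ mulHeight₁ y := by
    intro φ
    rw [NumberField.mulHeight₁_eq]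
    have h1 : ∀ v : NumberField.InfinitePlace K, 1 ≤ max (v y) 1 ^ v.mult := fun v =>
      one_le_pow₀ (le_max_right _ _)
    have h2 : 1 ≤ ∏ᶠ v : NumberField.FinitePlace K, max (v y) 1 :=
      one_le_finprod fun _ => le_max_right _ _
    have h3 : ‖φ y‖ ≤ max ((NumberField.InfinitePlace.mk φ) y) 1 ^
        (NumberField.InfinitePlace.mk φ).mult := by
      rw [← NumberField.InfinitePlace.apply]
      refine (le_max_left _ (1 : ℝ)).trans ?_
      exact le_self_pow₀ (le_max_right _ _) (NumberField.InfinitePlace.mult_ne_zero)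
    have h4 : 1 ≤ ∏ v ∈ (Finset.univ : Finset (NumberField.InfinitePlace K)).erase
        (NumberField.InfinitePlace.mk φ), max (v y) 1 ^ v.mult := by
      refine le_trans (le_of_eq (Finset.prod_const_one (s := (Finset.univ :
        Finset (NumberField.InfinitePlace K)).erase (NumberField.InfinitePlace.mk φ))).symm) ?_
      exact Finset.prod_le_prod (fun _ _ => zero_le_one) (fun v _ => h1 v)
    have h5 : ‖φ y‖ ≤ ∏ v : NumberField.InfinitePlace K, max (v y) 1 ^ v.mult := by
      rw [← Finset.mul_prod_erase _ _ (Finset.mem_univ (NumberField.InfinitePlace.mk φ))]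
      calc ‖φ y‖ = ‖φ y‖ * 1 := (mul_one _).symm
        _ ≤ _ := mul_le_mul h3 h4 zero_le_one ((norm_nonneg _).trans h3)
    calc ‖φ y‖ = ‖φ y‖ * 1 := (mul_one _).symm
      _ ≤ _ := mul_le_mul h5 h2 zero_le_one ((norm_nonneg _).trans h5)
  have h0 : 0 ≤ mulHeight₁ y := mulHeight₁_nonneg y
  unfold NumberField.house
  rw [pi_norm_le_iff_of_nonneg h0]
  intro φ
  exact key φ

lemma card_support {K : Type} [Field K] (D : ℕ) (f : MvPolynomial (Fin 2) K)
    (hD : ∀ i, f.degreeOf i ≤ D) : f.support.card ≤ (D + 1) ^ 2 := by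
  have h : f.support.card ≤ (Finset.range (D + 1) ×ˢ Finset.range (D + 1)).card := by
    apply Finset.card_le_card_of_injOn (fun s => (s 0, s 1))
    · intro s hs
      have h0 := (degreeOf_le_iff.1 (hD 0)) s hs
      have h1 := (degreeOf_le_iff.1 (hD 1)) s hs
      simp only [Finset.coe_product, Finset.coe_range, Set.mem_prod, Set.mem_Iio]
      omega
    · intro s _ t _ hst
      simp only [Prod.mk.injEq] at hst
      ext i
      fin_cases i
      · exact hst.1
      · exact hst.2
  rw [Finset.card_product, Finset.card_range] at h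
  rw [pow_two]
  exact h

/-- **SCAL.** -/
theorem scal : SCAL := by
  classical
  intro K _ _ D f hf hD
  obtain ⟨s0, hs0⟩ : f.support.Nonempty := by
    rw [Finset.nonempty_iff_ne_empty]
    intro h
    exact hf (support_eq_empty.1 h)
  have hc0 : coeff s0 f ≠ 0 := mem_support_iff.1 hs0
  obtain ⟨c0, hc⟩ : ∃ c0, c0 = coeff s0 f := ⟨_, rfl⟩
  rw [← hc] at hc0
  obtain ⟨H, hH⟩ : ∃ H, H = PH f := ⟨_, rfl⟩
  rw [← hH]
  have h1 : mulHeight (fun e : f.support => c0⁻¹ * coeff e.1 f) = H := by
    rw [hH]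
    exact mulHeight_smul_eq_mulHeight (fun e : f.support => coeff e.1 f) (inv_ne_zero hc0)
  have hH1 : 1 ≤ H := by
    rw [hH]
    exact one_le_mulHeight _
  have h2 : ∀ s ∈ f.support, mulHeight₁ (c0⁻¹ * coeff s f) ≤ H := by
    intro s hs
    rw [mulHeight₁_eq_mulHeight, ← h1]
    have e : ![c0⁻¹ * coeff s f, 1] = (fun e : f.support => c0⁻¹ * coeff e.1 f) ∘
        ![(⟨s, hs⟩ : f.support), ⟨s0, hs0⟩] := by
      ext i
      fin_cases i
      · rfl
      · show (1 : K) = c0⁻¹ * coeff s0 f
        rw [← hc, inv_mul_cancel₀ hc0]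
    rw [e]
    exact mulHeight_comp_le _ _
  choose n hn0 hnle hnint using fun s => NumberField.exists_nat_le_mulHeight₁ (c0⁻¹ * coeff s f)
  obtain ⟨N, hN⟩ : ∃ N, N = ∏ s ∈ f.support, n s := ⟨_, rfl⟩
  have hN0 : N ≠ 0 := by
    rw [hN]
    exact Finset.prod_ne_zero_iff.2 fun s _ => hn0 s
  have hNle : (N : ℝ) ≤ H ^ ((D + 1) ^ 2) := by
    rw [hN]
    push_cast
    calc ∏ s ∈ f.support, (n s : ℝ) ≤ ∏ s ∈ f.support, H :=
          Finset.prod_le_prod (fun s _ => Nat.cast_nonneg _) (fun s hs => (hnle s).trans (h2 s hs))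
      _ = H ^ f.support.card := by rw [Finset.prod_const]
      _ ≤ H ^ ((D + 1) ^ 2) := pow_le_pow_right₀ hH1 (card_support D f hD)
  refine ⟨N * c0⁻¹, mul_ne_zero (Nat.cast_ne_zero.2 hN0) (inv_ne_zero hc0), fun s => ?_⟩
  rw [mul_assoc]
  by_cases hs : s ∈ f.support
  · constructor
    · have e : (N : K) * (c0⁻¹ * coeff s f) =
          ((∏ t ∈ f.support.erase s, n t : ℕ) : K) * (n s * (c0⁻¹ * coeff s f)) := by
        rw [hN, ← Finset.prod_erase_mul _ _ hs]
        push_cast
        ring
      rw [e]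
      refine IsIntegral.mul ?_ (hnint s)
      have := isIntegral_algebraMap (R := ℤ) (A := K) (x := ((∏ t ∈ f.support.erase s, n t : ℕ) : ℤ))
      simpa using this
    · rw [NumberField.house_nat_mul, pow_succ]
      exact mul_le_mul hNle ((house_le_mulHeight₁ _).trans (h2 s hs)) (NumberField.house_nonneg _)
        (by positivity)
  · have e : coeff s f = 0 := notMem_support_iff.1 hs
    rw [e, mul_zero, mul_zero]
    refine ⟨isIntegral_zero, ?_⟩
    have h3 : NumberField.house (0 : K) = 0 := by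
      simp [NumberField.house]
    rw [h3]
    positivity

end Pool.Agent.Helper86.SGC
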